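import Mathlib
import Pool.Agent.H34.OC.FINAL

/-!
# Odd cycle lengths in two-connected nonbipartite graphs of large minimum degree

For every odd `k ≥ 3` there is `N` such that every two-connected nonbipartite graph `G` of order
`n ≥ N` with minimum degree at least `2n/(k+2)`, other than the balanced blow-up of the cycle with
`k+2` vertices, contains the cycle `C_m` for every odd `m` with `k ≤ m ≤ 2⌈2n/(k+2)⌉ - 1`.
-/

set_option autoImplicit false

namespace Pool.Agent.Results.MP_cfb535_co.OddCycleLengths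

universe u

/-- A (finite) graph is two-connected if it has at least three vertices and stays connected after
deleting any one vertex. -/
def TwoConnected {V : Type u} [Fintype V] (G : SimpleGraph V) : Prop :=
  3 ≤ Fintype.card V ∧ ∀ v : V, (G.induce {w : V | w ≠ v}).Connected

/-- A graph is bipartite if its vertex set splits as `A ∪ Aᶜ` with every edge joining `A` and its
complement. -/
def Bipartite {V : Type u} (G : SimpleGraph V) : Prop :=
  ∃ A : Set V, ∀ x y : V, G.Adj x y → (x ∈ A ↔ y ∉ A)

/-- The blow-up `H_{k,s}` of the cycle with `k + 2` vertices: its vertices are the pairs `(i, a)`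
with `i` a residue modulo `k + 2` and `a < s`, and two pairs are adjacent exactly when their
residues are consecutive modulo `k + 2`. -/
def blowUp (k s : ℕ) : SimpleGraph (ZMod (k + 2) × Fin s) where
  Adj x y := y.1 = x.1 + 1 ∨ x.1 = y.1 + 1
  symm := ⟨fun _ _ h => h.symm⟩
  loopless := ⟨fun x h => by
    have : Fact (1 < k + 2) := ⟨by omega⟩
    rcases h with h | h <;> exact one_ne_zero (left_eq_add.mp h)⟩

/-- the blow-up above is the blow-up used in the proof -/
private theorem blowUp_iso (k s : ℕ) :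
    Nonempty (((SimpleGraph.cycleGraph (k + 2)).comap
      (Prod.fst : Fin (k + 2) × Fin s → Fin (k + 2))) ≃g blowUp k s) := by
  refine ⟨⟨Equiv.prodCongr (ZMod.finEquiv (k + 2)).toEquiv (Equiv.refl _), ?_⟩⟩
  intro x y
  have h1 : ∀ a b : Fin (k + 2), ZMod.finEquiv (k + 2) b = ZMod.finEquiv (k + 2) a + 1 ↔
      b - a = 1 := by
    intro a b
    rw [sub_eq_iff_eq_add', ← (ZMod.finEquiv (k + 2)).injective.eq_iff (b := a + 1), map_add,
      map_one]
  rw [SimpleGraph.comap_adj, SimpleGraph.cycleGraph_adj]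
  change (ZMod.finEquiv (k + 2) y.1 = ZMod.finEquiv (k + 2) x.1 + 1 ∨
    ZMod.finEquiv (k + 2) x.1 = ZMod.finEquiv (k + 2) y.1 + 1) ↔ _
  rw [h1, h1]
  exact or_comm

/-- **Theorem.** For every odd `k ≥ 3` there is `N` such that every two-connected nonbipartite
graph `G` on `n ≥ N` vertices with minimum degree at least `2n/(k+2)` that is not isomorphic to a
blow-up `H_{k,s}` (`s ≥ 1`) contains the cycle with `m` vertices as a subgraph, for every odd `m`
with `k ≤ m ≤ 2⌈2n/(k+2)⌉ - 1`. -/
theorem result :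
    ∀ k : ℕ, 3 ≤ k → Odd k → ∃ N : ℕ, ∀ (V : Type u) [Fintype V] (G : SimpleGraph V)
      [DecidableRel G.Adj], N ≤ Fintype.card V → TwoConnected G → ¬ Bipartite G →
      2 * (Fintype.card V : ℚ) / (k + 2) ≤ G.minDegree →
      (∀ s : ℕ, 1 ≤ s → ¬ Nonempty (G ≃g blowUp k s)) →
      ∀ m : ℕ, Odd m → k ≤ m → m + 1 ≤ 2 * ⌈2 * (Fintype.card V : ℚ) / (k + 2)⌉₊ →
        (SimpleGraph.cycleGraph m).IsContained G := by
  intro k hk hodd
  obtain ⟨N, hN⟩ := Pool.Agent.H34.OC.final k hk hodd
  refine ⟨N, ?_⟩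
  intro V _ G _ hcard h2 hbip hmin hiso m hm hkm hmc
  classical
  have e : Fin (Fintype.card V) ≃ V := (Fintype.equivFin V).symm
  let G' : SimpleGraph (Fin (Fintype.card V)) := G.comap e
  let i : G' ≃g G := SimpleGraph.Iso.comap e G
  have hcardF : Fintype.card (Fin (Fintype.card V)) = Fintype.card V := Fintype.card_fin _
  obtain ⟨t, rfl⟩ := hm
  have key := hN (Fin (Fintype.card V)) (by rw [hcardF]; exact hcard) G'
    (by rw [hcardF]; exact h2.1) ?_ ?_ ?_ ?_ t hkm ?_
  · obtain ⟨u, p, hp, hl⟩ := key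
    have h3 : (SimpleGraph.cycleGraph (2 * t + 1)).IsContained G' := by
      rw [SimpleGraph.cycleGraph_isContained_iff (by omega)]
      exact ⟨u, p, hp, hl⟩
    exact h3.trans ⟨i.toCopy⟩
  · intro v
    have j : (G'.induce ({v}ᶜ : Set (Fin (Fintype.card V)))) ≃g
        (G.induce {w : V | w ≠ i v}) :=
      ⟨i.toEquiv.subtypeEquiv (fun a => by
        simp only [Set.mem_compl_iff, Set.mem_singleton_iff]
        exact (i.injective.ne_iff (x := a) (y := v)).symm), by
        intro a b
        exact i.map_adj_iff⟩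
    rw [j.connected_iff]
    exact h2.2 (i v)
  · intro hcol
    apply hbip
    have hcol2 : G.Colorable 2 := hcol.of_hom i.symm.toHom
    obtain ⟨c⟩ := hcol2
    refine ⟨{x | c x = 0}, fun x y hxy => ?_⟩
    have hv := c.valid hxy
    simp only [Set.mem_ofPred_eq]
    generalize c x = a at hv ⊢
    generalize c y = b at hv ⊢
    revert a b
    decide
  · intro v
    rw [hcardF]
    have h3 : (G'.neighborSet v).ncard = (G.neighborSet (i v)).ncard := by
      rw [← i.image_neighborSet, Set.ncard_image_of_injective _ i.injective]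
    have h4 : (G.neighborSet (i v)).ncard = G.degree (i v) := by
      rw [Set.ncard_eq_toFinset_card', ← SimpleGraph.card_neighborFinset_eq_degree]
      rfl
    have h5 : 2 * (Fintype.card V : ℚ) / (k + 2) ≤ (G.degree (i v) : ℚ) :=
      hmin.trans (by exact_mod_cast G.minDegree_le_degree (i v))
    have h6 : ((2 * (Fintype.card V : ℚ) / (k + 2) : ℚ) : ℝ) ≤ ((G.degree (i v) : ℚ) : ℝ) :=
      Rat.cast_le.mpr h5
    rw [h3, h4]
    push_cast at h6
    exact h6
  · intro s
    constructor
    intro f
    obtain ⟨g⟩ := blowUp_iso k s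
    rcases Nat.eq_zero_or_pos s with rfl | hs
    · have h6 : 0 < Fintype.card V := by have := h2.1; omega
      exact (f ⟨0, h6⟩).2.elim0
    · exact hiso s hs ⟨(i.symm.trans f).trans g⟩
  · rw [hcardF]
    have h7 : ⌈(2 * (Fintype.card V : ℝ)) / ((k : ℝ) + 2)⌉ =
        ((⌈2 * (Fintype.card V : ℚ) / (k + 2)⌉₊ : ℕ) : ℤ) := by
      rw [Int.natCast_ceil_eq_ceil (by positivity)]
      have h8 : (2 * (Fintype.card V : ℝ)) / ((k : ℝ) + 2) =
          ((2 * (Fintype.card V : ℚ) / (k + 2) : ℚ) : ℝ) := by push_cast; ring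
      rw [h8, Rat.ceil_cast]
    rw [h7]
    omega

end Pool.Agent.Results.MP_cfb535_co.OddCycleLengths
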